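import Pool.Agent.H44.KR.Targets

set_option autoImplicit false

namespace Pool.Agent.H34.KR

open Pool.Agent.H68.BP Pool.Agent.H58.SF Pool.Agent.H53.NR Pool.Agent.H53.GM Pool.Agent.H44.KR
open Pool.Agent.H57.LCI (LocalCompletions Pre Realizes)
open Pool.Agent.H57.AR (tp ty)
open Pool.Agent.H57.EQ (Cx)
open Function
open Classical

theorem pf_BEH : T_BEH := by
  intro V σ ρ 𝔸 𝔹 L Φ hP hC r j hj I W hW la G rk hS hrk
  have hp := hP r j hj
  have hcfg : Cfg r (fun w => blk L r j (fun c => G (la c) w)) rk := by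
    refine ⟨?_, ?_, ?_, hrk⟩
    · intro w c
      exact hp.at_ c
    · intro w w' c
      exact hp.adj c c
    · intro Z w w' c c' hc hc' _
      exact (hp.eq c c').2 (hp.sh Z c c' hc hc')
  obtain ⟨ψ, hψ, hcol⟩ := hC.out r W _ rk hcfg
  refine ⟨ψ, ?_, ?_⟩
  · intro l z h
    exact hψ l z fun c => h (la c)
  · intro w w'
    refine hcol w w' ?_
    intro p q
    rcases p with p | p <;> rcases q with q | q <;> exact hp.adj p q

end Pool.Agent.H34.KR
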