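import Pool.Agent.H44.KR.Targets

set_option autoImplicit false

namespace Pool.Agent.H34.KR

open Pool.Agent.H68.BP Pool.Agent.H58.SF Pool.Agent.H53.NR Pool.Agent.H53.GM Pool.Agent.H44.KR
open Pool.Agent.H57.LCI (LocalCompletions Pre Realizes)
open Pool.Agent.H57.AR (tp ty)
open Pool.Agent.H57.EQ (Cx)
open Function
open Classical

theorem chn_sh (j : ℕ) (a : Fin 2) (h : sh j a ≠ 0) : sh (j + 1) a ≠ 0 := by
  have h0 : sh j 0 = (j + 1) / 2 := rfl
  have h1 : sh j 1 = j / 2 := rfl
  have h2 : sh (j + 1) 0 = (j + 1 + 1) / 2 := rfl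
  have h3 : sh (j + 1) 1 = (j + 1) / 2 := rfl
  have h4 : a = 0 ∨ a = 1 := by omega
  rcases h4 with rfl | rfl
  · rw [h0] at h
    rw [h2]
    omega
  · rw [h1] at h
    rw [h3]
    omega

theorem chn_lr {r : Fin 3} {j : ℕ} {c c' : Fin 6} (h : Ent r j c c') : lr r c = lr r c' := by
  rcases h with h | h
  · rw [h]
  · exact h.1

theorem pf_CHN : T_CHN := by
  intro L r e he
  have hP0 : Ent r 0 (e 0) (e 0) := Or.inl rfl
  have hPl : ¬ Ent r (2 * L + 2) (e (2 * L + 2)) (e 0) := fun h => he (chn_lr h).symm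
  have hj : ∃ j, j < 2 * L + 2 ∧ Ent r j (e j) (e 0) ∧ ¬ Ent r (j + 1) (e (j + 1)) (e 0) := by
    by_contra hc
    push Not at hc
    have h : ∀ j, j ≤ 2 * L + 2 → Ent r j (e j) (e 0) := by
      intro j
      induction j with
      | zero => intro _; exact hP0
      | succ j ih => intro hj; exact hc j (by omega) (ih (by omega))
    exact hPl (h _ le_rfl)
  obtain ⟨j, hj, h1, h2⟩ := hj
  refine ⟨j, hj, ?_⟩
  intro c hc hc'
  apply h2
  by_cases hs : sh j (lr r (e j)) = 0
  · have ha : e j = c := by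
      rcases hc with h | h
      · exact h
      · exact absurd hs h.2
    have hb : e j = e 0 := by
      rcases h1 with h | h
      · exact h
      · exact absurd hs h.2
    rw [← hb, ha]
    exact hc'
  · have hl : lr r (e (j + 1)) = lr r (e j) := (chn_lr hc').trans (chn_lr hc).symm
    refine Or.inr ⟨hl.trans (chn_lr h1), ?_⟩
    rw [hl]
    exact chn_sh j _ hs

end Pool.Agent.H34.KR
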