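import Pool.Agent.H44.KR.Targets

set_option autoImplicit false

namespace Pool.Agent.H34.KR

open Pool.Agent.H68.BP Pool.Agent.H58.SF Pool.Agent.H53.NR Pool.Agent.H53.GM Pool.Agent.H44.KR
open Pool.Agent.H57.LCI (LocalCompletions Pre Realizes)
open Pool.Agent.H57.AR (tp ty)
open Pool.Agent.H57.EQ (Cx)
open Function

theorem exe_lr (r : Fin 3) (d : Fin 2) : ∃ c : Fin 6, lr r c = d := by
  revert r d
  decide

theorem exe_ent {r : Fin 3} {j : ℕ} {c c' : Fin 6} (h : Ent r j c c') : lr r c = lr r c' := by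
  rcases h with h | h
  · rw [h]
  · exact h.1

theorem exe_plc (L : ℕ) (r : Fin 3) (c : Fin 6) :
    plc L r (2 * L + 2) c = Sum.inr (Sum.inr (lr r c)) := by
  have h0 : sh (2 * L + 2) 0 = (2 * L + 2 + 1) / 2 := rfl
  have h1 : sh (2 * L + 2) 1 = (2 * L + 2) / 2 := rfl
  have h2 : lr r c = 0 ∨ lr r c = 1 := by omega
  have h3 : sh (2 * L + 2) (lr r c) = L + 1 := by
    rcases h2 with h | h
    · rw [h, h0]
      omega
    · rw [h, h1]
      omega
  unfold plc
  rw [if_neg (by rw [h3]; omega), dif_neg (by rw [h3]; omega)]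

open Classical

theorem exe_two {V : Type} {ρ : Sig} {𝔹 : Str ρ V} (hB : HB 𝔹) (v : V) :
    ∃ v', v' ≠ v ∧ ty 𝔹 v' = ty 𝔹 v := by
  obtain ⟨x', h1, _, h3⟩ := hB.amg Unit ∅ (fun _ => v) (fun _ => v) {v}
    ⟨fun _ _ _ _ => Iff.rfl, fun _ _ _ => Iff.rfl⟩
  refine ⟨x' (), ?_, ?_⟩
  · intro h
    obtain ⟨a, ha, _⟩ := h3 () (by rw [h]; exact Finset.mem_singleton_self v)
    exact ha
  · funext l
    exact congrFun (congrFun (congrArg Prod.snd h1) l) (fun _ => ())

/-- the rank -/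
noncomputable def exeRk (L : ℕ) {V : Type} (v : V) (p : Pl L × V) : ℕ :=
  (if p.1 = Sum.inr (Sum.inr 0) then 0 else 2) + (if p.2 = v then 0 else 1)

theorem exeRk_inj (L : ℕ) {V : Type} (v v' : V) (d d' : Fin 2) (w w' : V)
    (hw : w = v ∨ w = v') (hw' : w' = v ∨ w' = v')
    (h : exeRk L v (Sum.inr (Sum.inr d), w) = exeRk L v (Sum.inr (Sum.inr d'), w')) :
    ((Sum.inr (Sum.inr d), w) : Pl L × V) = (Sum.inr (Sum.inr d'), w') := by
  have key : ∀ (d : Fin 2) (w : V), exeRk L v (Sum.inr (Sum.inr d), w) =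
      (if d = 0 then 0 else 2) + (if w = v then 0 else 1) := by
    intro d w
    have h0 : d = 0 ∨ d = 1 := by omega
    rcases h0 with rfl | rfl
    · rfl
    · have h1 : ¬ ((Sum.inr (Sum.inr 1) : Pl L) = Sum.inr (Sum.inr 0)) := by
        intro h
        have h2 := Sum.inr.inj (Sum.inr.inj h)
        exact absurd h2 (by decide)
      unfold exeRk
      rw [if_neg h1, if_neg (show ¬ ((1 : Fin 2) = 0) by decide)]
  rw [key, key] at h
  have hd : d = d' := by
    by_contra hne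
    have h0 : (d = 0 ∧ ¬ d' = 0) ∨ (¬ d = 0 ∧ d' = 0) := by omega
    rcases h0 with ⟨h1, h2⟩ | ⟨h1, h2⟩
    · rw [if_pos h1, if_neg h2] at h
      split_ifs at h <;> omega
    · rw [if_neg h1, if_pos h2] at h
      split_ifs at h <;> omega
  subst hd
  have hv : w = v ↔ w' = v := by
    by_cases h1 : w = v <;> by_cases h2 : w' = v
    · exact ⟨fun _ => h2, fun _ => h1⟩
    · rw [if_pos h1, if_neg h2] at h
      omega
    · rw [if_neg h1, if_pos h2] at h
      omega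
    · exact ⟨fun h => absurd h h1, fun h => absurd h h2⟩
  have : w = w' := by
    by_cases h1 : w = v
    · rw [h1, hv.1 h1]
    · rw [hw.resolve_left h1, hw'.resolve_left fun h => h1 (hv.2 h)]
  rw [this]

theorem exe_iff {V : Type} {ρ : Sig} {𝔹 : Str ρ V} {L : ℕ} {Φ : Kd ρ L JJ → Yc ρ}
    {s : Fin ρ.m → Prop} {v v' : V} (hne : v' ≠ v) (hv : ty 𝔹 v = s) (hv' : ty 𝔹 v' = s)
    (x : Fin 2 → Fin 2 → V) (hx : ∀ i d, x i d = if i = 1 ∧ d = 1 then v' else v)
    (r : Fin 3) (d : Fin 2) (hd : IsJ 𝔹 Φ r (2 * L + 2) s {c | lr r c = d}) :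
    (Φ (kv 𝔹 (exeRk L v) (Sum.elim (fun c => (Sum.inr (Sum.inr (lr r c)), x 0 (lr r c)))
      (fun c => (Sum.inr (Sum.inr (lr r c)), x 1 (lr r c)))))).1 ↔ d = 0 := by
  have hb : ∀ i, blk L r (2 * L + 2) (fun c => x i (lr r c)) =
      fun c => (Sum.inr (Sum.inr (lr r c)), x i (lr r c)) := by
    intro i
    funext c
    unfold blk
    rw [exe_plc]
  have hxv : ∀ i d, x i d = v ∨ x i d = v' := by
    intro i d
    rw [hx]
    split_ifs
    · exact Or.inr rfl
    · exact Or.inl rfl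
  have hS : ∀ i, BlS 𝔹 r (2 * L + 2) s (fun c => x i (lr r c)) := by
    intro i
    refine ⟨?_, ?_⟩
    · intro c c' h
      show x i (lr r c) = x i (lr r c')
      rw [exe_ent h]
    · intro c
      show ty 𝔹 (x i (lr r c)) = s
      rcases hxv i (lr r c) with h | h
      · rw [h, hv]
      · rw [h, hv']
  have hR : RkI (exeRk L v) (Sum.elim (blk L r (2 * L + 2) (fun c => x 0 (lr r c)))
      (blk L r (2 * L + 2) (fun c => x 1 (lr r c)))) := by
    rw [hb 0, hb 1]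
    intro p q h
    rcases p with c | c <;> rcases q with c' | c'
    · exact exeRk_inj L v v' _ _ _ _ (hxv _ _) (hxv _ _) h
    · exact exeRk_inj L v v' _ _ _ _ (hxv _ _) (hxv _ _) h
    · exact exeRk_inj L v v' _ _ _ _ (hxv _ _) (hxv _ _) h
    · exact exeRk_inj L v v' _ _ _ _ (hxv _ _) (hxv _ _) h
  have h1 := hd.2 _ _ (exeRk L v) (hS 0) (hS 1) hR
  unfold Fv at h1
  rw [hb 0, hb 1] at h1
  rw [h1]
  constructor
  · intro h
    by_contra hd0
    have hd1 : d = 1 := by omega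
    obtain ⟨c, hc⟩ := exe_lr r d
    have h2 := h c hc
    have h3 : x 0 (lr r c) = x 1 (lr r c) := h2
    rw [hc, hd1, hx, hx, if_neg (by simp), if_pos ⟨rfl, rfl⟩] at h3
    exact hne h3.symm
  · intro h c hc
    have hc' : lr r c = d := hc
    show x 0 (lr r c) = x 1 (lr r c)
    rw [hc', h, hx, hx, if_neg (by simp), if_neg (by simp)]

theorem pf_EXE : T_EXE := by
  intro V σ ρ 𝔸 𝔹 L Φ hB hC r s hs d d' hd hd'
  obtain ⟨v, hv⟩ := hs
  obtain ⟨v', hne, hv'⟩ := exe_two hB v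
  have hx : ∀ i d : Fin 2, (fun (i d : Fin 2) => if i = 1 ∧ d = 1 then v' else v) i d =
      if i = 1 ∧ d = 1 then v' else v := fun _ _ => rfl
  have h1 := exe_iff (Φ := Φ) hne hv (hv'.trans hv) _ hx r d hd
  have h2 := exe_iff (Φ := Φ) hne hv (hv'.trans hv) _ hx 0 d' hd'
  have hR : RkI (exeRk L v) (fun q : Fin 2 × Fin 2 => ((Sum.inr (Sum.inr q.2) : Pl L),
      (fun (i d : Fin 2) => if i = 1 ∧ d = 1 then v' else v) q.1 q.2)) := by
    intro p q h
    refine exeRk_inj L v v' _ _ _ _ ?_ ?_ h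
    · show (if p.1 = 1 ∧ p.2 = 1 then v' else v) = v ∨ (if p.1 = 1 ∧ p.2 = 1 then v' else v) = v'
      split_ifs
      · exact Or.inr rfl
      · exact Or.inl rfl
    · show (if q.1 = 1 ∧ q.2 = 1 then v' else v) = v ∨ (if q.1 = 1 ∧ q.2 = 1 then v' else v) = v'
      split_ifs
      · exact Or.inr rfl
      · exact Or.inl rfl
  have h3 := hC.ex r (fun (i d : Fin 2) => if i = 1 ∧ d = 1 then v' else v) (exeRk L v) hR
  rw [h3] at h1
  have h4 : d = 0 ↔ d' = 0 := h1.symm.trans h2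
  omega

end Pool.Agent.H34.KR
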