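import Pool.Agent.H34.KR.THS

set_option autoImplicit false

namespace Pool.Agent.H34.KR

open Pool.Agent.H68.BP Pool.Agent.H58.SF Pool.Agent.H53.NR Pool.Agent.H53.GM Pool.Agent.H44.KR
open Pool.Agent.H57.LCI (LocalCompletions Pre Realizes)
open Pool.Agent.H57.AR (tp ty)
open Pool.Agent.H57.EQ (Cx)
open Function
open Classical

theorem nrm_cx {V W : Type} {σ : Sig} {𝔸 : Str σ V} {G ψ ψ' : W → V}
    (h : Cx 𝔸 (fun _ : Unit => G) ψ) (h' : Cx 𝔸 (fun _ : Unit => ψ) ψ') :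
    Cx 𝔸 (fun _ : Unit => G) ψ' := by
  intro l z hz
  exact h' l z fun _ => h l z hz

theorem nrm_per {V : Type} {σ ρ : Sig} {𝔸 : Str σ V} {𝔹 : Str ρ V} (hP : Prm 𝔸 𝔹)
    {θ : (Fin ρ.m → Prop) → (Fin ρ.m → Prop)} (hθ : Sb 𝔸 𝔹 θ) {s : Fin ρ.m → Prop}
    (hs : s ∈ Rlz 𝔹) : ∃ n, θ^[n] (θ s) = s := by
  have hi := hP θ hθ
  have hinj : Injective (fun t : Rlz 𝔹 => (⟨θ t, ths_mem hθ t.2⟩ : Rlz 𝔹)) := by
    intro t t' h
    exact Subtype.ext (hi t.2 t'.2 (congrArg Subtype.val h))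
  have hit : ∀ n, (((fun t : Rlz 𝔹 => (⟨θ t, ths_mem hθ t.2⟩ : Rlz 𝔹))^[n] ⟨s, hs⟩ : Rlz 𝔹) :
      Fin ρ.m → Prop) = θ^[n] s := by
    intro n
    induction n with
    | zero => rfl
    | succ n ih =>
      rw [iterate_succ_apply', iterate_succ_apply', ← ih]
  have hper := hinj.mem_periodicPts ⟨s, hs⟩
  obtain ⟨n, hn, hp⟩ := hper
  obtain ⟨k, rfl⟩ : ∃ k, n = k + 1 := ⟨n - 1, by omega⟩
  refine ⟨k, ?_⟩
  rw [← iterate_succ_apply, ← hit (k + 1)]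
  exact congrArg Subtype.val hp

theorem nrm_mem {V : Type} {σ ρ : Sig} {𝔸 : Str σ V} {𝔹 : Str ρ V}
    {θ : (Fin ρ.m → Prop) → (Fin ρ.m → Prop)} (hθ : Sb 𝔸 𝔹 θ) {s : Fin ρ.m → Prop}
    (hc : ¬ Clp 𝔸 𝔹 s) : ¬ Clp 𝔸 𝔹 (θ s) := by
  intro h
  apply hc
  intro W hW G
  obtain ⟨ψ₁, h1, h2⟩ := hθ W G
  obtain ⟨ψ₂, h3, h4⟩ := h W ψ₁
  refine ⟨ψ₂, nrm_cx h1 h3, ?_⟩
  intro w w' hw hw'
  exact h4 w w' (by rw [h2, hw]) (by rw [h2, hw'])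

theorem pf_NRM : T_NRM := by
  intro V σ ρ 𝔸 𝔹 hP θ hθ hU s hs hc
  obtain ⟨n, hn⟩ := nrm_per hP hθ hs
  have hcl : ∀ k, ¬ Clp 𝔸 𝔹 (θ^[k] (θ s)) := by
    intro k
    induction k with
    | zero => exact nrm_mem hθ hc
    | succ k ih =>
      rw [iterate_succ_apply']
      exact nrm_mem hθ ih
  have key : ∀ k, NrmC 𝔸 𝔹 (θ s) (θ^[k] (θ s)) := by
    intro k
    induction k with
    | zero =>
      intro W hW G
      exact ⟨G, fun l z h => h (), fun w h => h, fun w w' _ _ => Iff.rfl⟩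
    | succ k ih =>
      intro W hW G
      obtain ⟨ψ, h1, h2, h3⟩ := ih W G
      obtain ⟨ψ', h4, h5, h6⟩ := hU W ψ
      refine ⟨ψ', nrm_cx h1 h4, ?_, ?_⟩
      · intro w hw
        rw [h5, h2 w hw, iterate_succ_apply']
      · intro w w' hw hw'
        have h7 : ty 𝔹 (ψ w) = ty 𝔹 (ψ w') := by rw [h2 w hw, h2 w' hw']
        have h8 : ¬ Clp 𝔸 𝔹 (ty 𝔹 (ψ w)) := by
          rw [h2 w hw]
          exact hcl k
        exact (h6 w w' h7 h8).trans (h3 w w' hw hw')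
  have h := key n
  rw [hn] at h
  exact h

end Pool.Agent.H34.KR
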