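import Pool.Agent.H44.KR.Targets

set_option autoImplicit false

namespace Pool.Agent.H34.KR

open Pool.Agent.H68.BP Pool.Agent.H58.SF Pool.Agent.H53.NR Pool.Agent.H53.GM Pool.Agent.H44.KR
open Pool.Agent.H57.LCI (LocalCompletions Pre Realizes)
open Pool.Agent.H57.AR (tp ty)
open Pool.Agent.H57.EQ (Cx)
open Function

theorem plf_sh (j : ℕ) (d : Fin 2) : sh j d = (j + 1) / 2 ∨ sh j d = j / 2 := by
  have h2 : d = 0 ∨ d = 1 := by omega
  rcases h2 with rfl | rfl
  · exact Or.inl rfl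
  · exact Or.inr rfl

theorem plf_cases (L : ℕ) (r : Fin 3) (j : ℕ) (c : Fin 6) :
    (sh j (lr r c) = 0 ∧ plc L r j c = Sum.inl c) ∨
    (∃ h : sh j (lr r c) - 1 < L, sh j (lr r c) ≠ 0 ∧
      plc L r j c = Sum.inr (Sum.inl (⟨sh j (lr r c) - 1, h⟩, r, lr r c))) ∨
    (sh j (lr r c) ≠ 0 ∧ L ≤ sh j (lr r c) - 1 ∧ plc L r j c = Sum.inr (Sum.inr (lr r c))) := by
  by_cases h0 : sh j (lr r c) = 0
  · refine Or.inl ⟨h0, ?_⟩
    unfold plc
    rw [if_pos h0]
  · by_cases h1 : sh j (lr r c) - 1 < L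
    · refine Or.inr (Or.inl ⟨h1, h0, ?_⟩)
      unfold plc
      rw [if_neg h0, dif_pos h1]
    · refine Or.inr (Or.inr ⟨h0, not_lt.1 h1, ?_⟩)
      unfold plc
      rw [if_neg h0, dif_neg h1]

/-- the place of a letter at a stage which is not zero -/
def plfAux (L : ℕ) (r : Fin 3) (j : ℕ) (d : Fin 2) : Pl L :=
  if h : sh j d - 1 < L then Sum.inr (Sum.inl (⟨sh j d - 1, h⟩, r, d)) else Sum.inr (Sum.inr d)

theorem plf_aux {L : ℕ} {r : Fin 3} {j : ℕ} {c : Fin 6} (h : sh j (lr r c) ≠ 0) :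
    plc L r j c = plfAux L r j (lr r c) := by
  unfold plc
  rw [if_neg h]
  rfl

theorem plf_lev {L : ℕ} {r : Fin 3} {j : ℕ} (hj : j ≤ 2 * L + 2) (c : Fin 6) :
    lev (reg (plc L r j c)) = sh j (lr r c) := by
  rcases plf_cases L r j c with ⟨h, hp⟩ | ⟨h, h0, hp⟩ | ⟨h, h1, hp⟩
  · rw [hp, h]
    rfl
  · rw [hp]
    show sh j (lr r c) - 1 + 1 = sh j (lr r c)
    omega
  · rw [hp]
    show L + 1 = sh j (lr r c)
    rcases plf_sh j (lr r c) with h2 | h2 <;> omega

theorem plf_reg {L : ℕ} {r : Fin 3} {j : ℕ} (c : Fin 6) (q : Fin L × Fin 3)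
    (hq : reg (plc L r j c) = some (some q)) : q.2 = r := by
  rcases plf_cases L r j c with ⟨h, hp⟩ | ⟨h, h0, hp⟩ | ⟨h, h1, hp⟩
  · rw [hp] at hq
    exact absurd hq (fun h => Option.some_ne_none _ h.symm)
  · rw [hp] at hq
    have h2 := Option.some.inj (Option.some.inj hq)
    rw [← h2]
  · rw [hp] at hq
    exact absurd (Option.some.inj hq) (fun h => Option.some_ne_none _ h.symm)

theorem pf_PLF : T_PLF := by
  intro L r j hL hj
  refine ⟨?_, ?_, ?_, ?_⟩
  · intro c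
    rcases plf_cases L r j c with ⟨h, hp⟩ | ⟨h, h0, hp⟩ | ⟨h, h1, hp⟩
    · rw [hp]
      exact rfl
    · rw [hp]
      exact ⟨rfl, rfl⟩
    · rw [hp]
      exact rfl
  · intro c c'
    constructor
    · intro he
      rcases plf_cases L r j c with ⟨h, hp⟩ | ⟨h, h0, hp⟩ | ⟨h, h1, hp⟩ <;>
      rcases plf_cases L r j c' with ⟨h', hp'⟩ | ⟨h', h0', hp'⟩ | ⟨h', h1', hp'⟩ <;>
      rw [hp, hp'] at he
      · exact Or.inl (Sum.inl.inj he)
      · exact absurd he Sum.inl_ne_inr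
      · exact absurd he Sum.inl_ne_inr
      · exact absurd he Sum.inr_ne_inl
      · exact Or.inr ⟨(Prod.mk.inj (Prod.mk.inj (Sum.inl.inj (Sum.inr.inj he))).2).2, h0⟩
      · exact absurd (Sum.inr.inj he) Sum.inl_ne_inr
      · exact absurd he Sum.inr_ne_inl
      · exact absurd (Sum.inr.inj he) Sum.inr_ne_inl
      · exact Or.inr ⟨Sum.inr.inj (Sum.inr.inj he), h⟩
    · rintro (he | ⟨he, hs⟩)
      · rw [he]
      · rw [plf_aux hs, plf_aux (c := c') (by rw [← he]; exact hs), he]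
  · intro c c'
    refine ⟨?_, ?_, ?_⟩
    · rw [plf_lev hj, plf_lev hj]
      rcases plf_sh j (lr r c) with h | h <;> rcases plf_sh j (lr r c') with h' | h' <;> omega
    · rw [plf_lev hj, plf_lev hj]
      rcases plf_sh j (lr r c) with h | h <;> rcases plf_sh j (lr r c') with h' | h' <;> omega
    · intro q q' hq hq'
      rw [plf_reg c q hq, plf_reg c' q' hq']
  · intro Z c c' hc hc'
    rcases plf_cases L r j c with ⟨h, hp⟩ | ⟨h, h0, hp⟩ | ⟨h, h1, hp⟩ <;>
    rcases plf_cases L r j c' with ⟨h', hp'⟩ | ⟨h', h0', hp'⟩ | ⟨h', h1', hp'⟩ <;>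
    rw [hp] at hc <;> rw [hp'] at hc' <;> rcases Z with c₀ | d
    · have e1 : c = c₀ := hc
      have e2 : c' = c₀ := hc'
      exact Or.inl (e1.trans e2.symm)
    · exact absurd hc id
    · have e1 : c = c₀ := hc
      have e2 : lr r c₀ = lr r c' := hc'
      rw [e1, e2] at h
      exact absurd h h0'
    · exact absurd hc id
    · exact absurd hc' id
    · exact absurd hc id
    · have e1 : lr r c₀ = lr r c := hc
      have e2 : c' = c₀ := hc'
      rw [e2, e1] at h'
      exact absurd h' h0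
    · exact absurd hc' id
    · have e1 : lr r c₀ = lr r c := hc
      have e2 : lr r c₀ = lr r c' := hc'
      exact Or.inr ⟨e1.symm.trans e2, h0⟩
    · have e1 : lr r c = d := hc
      have e2 : lr r c' = d := hc'
      exact Or.inr ⟨e1.trans e2.symm, h0⟩
    · exact absurd hc' id
    · have e1 : lr r c = d := hc
      have e2 : lr r c' = d := hc'
      exact Or.inr ⟨e1.trans e2.symm, h0⟩
    · exact absurd hc id
    · exact absurd hc' id
    · exact absurd hc id
    · have e1 : lr r c = d := hc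
      have e2 : lr r c' = d := hc'
      exact Or.inr ⟨e1.trans e2.symm, h⟩
    · exact absurd hc id
    · have e1 : lr r c = d := hc
      have e2 : lr r c' = d := hc'
      exact Or.inr ⟨e1.trans e2.symm, h⟩

end Pool.Agent.H34.KR
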