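import Pool.Agent.H34.KR.PLF

set_option autoImplicit false

namespace Pool.Agent.H34.KR

open Pool.Agent.H68.BP Pool.Agent.H58.SF Pool.Agent.H53.NR Pool.Agent.H53.GM Pool.Agent.H44.KR
open Pool.Agent.H57.LCI (LocalCompletions Pre Realizes)
open Pool.Agent.H57.AR (tp ty)
open Pool.Agent.H57.EQ (Cx)
open Function

theorem pls_sh (j : ℕ) (d : Fin 2) :
    ((d : ℕ) = 0 ∧ sh j d = (j + 1) / 2 ∧ sh (j + 1) d = (j + 2) / 2) ∨
      ((d : ℕ) = 1 ∧ sh j d = j / 2 ∧ sh (j + 1) d = (j + 1) / 2) := by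
  have h2 : d = 0 ∨ d = 1 := by omega
  rcases h2 with rfl | rfl
  · exact Or.inl ⟨rfl, rfl, rfl⟩
  · exact Or.inr ⟨rfl, rfl, rfl⟩

/-- the place of a position with the stage `n` -/
def plsG (L : ℕ) (r : Fin 3) (n : ℕ) (d : Fin 2) (c : Fin 6) : Pl L :=
  if n = 0 then Sum.inl c
  else if h : n - 1 < L then Sum.inr (Sum.inl (⟨n - 1, h⟩, r, d)) else Sum.inr (Sum.inr d)

theorem pls_same {L : ℕ} {r : Fin 3} {j : ℕ} {c : Fin 6}
    (h : sh j (lr r c) = sh (j + 1) (lr r c)) : plc L r j c = plc L r (j + 1) c := by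
  show plsG L r (sh j (lr r c)) (lr r c) c = plsG L r (sh (j + 1) (lr r c)) (lr r c) c
  rw [h]

theorem pls_mono {j : ℕ} {d : Fin 2} (h : sh j d ≠ 0) : sh (j + 1) d ≠ 0 := by
  rcases pls_sh j d with ⟨_, h1, h2⟩ | ⟨_, h1, h2⟩ <;> omega

theorem pls_mono' {j : ℕ} {d : Fin 2} : sh j d ≤ sh (j + 1) d ∧ sh (j + 1) d ≤ sh j d + 1 := by
  rcases pls_sh j d with ⟨_, h1, h2⟩ | ⟨_, h1, h2⟩ <;> omega

theorem pls_ne {j : ℕ} {d : Fin 2} (h : sh j d = sh (j + 1) d) : (d : ℕ) ≠ j % 2 := by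
  rcases pls_sh j d with ⟨h0, h1, h2⟩ | ⟨h0, h1, h2⟩ <;> omega

theorem pls_of_ne {j : ℕ} {d : Fin 2} (h : (d : ℕ) ≠ j % 2) : sh j d = sh (j + 1) d := by
  rcases pls_sh j d with ⟨h0, h1, h2⟩ | ⟨h0, h1, h2⟩ <;> omega

theorem pls_near (j : ℕ) (d d' : Fin 2) :
    sh j d ≤ sh (j + 1) d' + 1 ∧ sh (j + 1) d' ≤ sh j d + 1 := by
  rcases pls_sh j d with ⟨h0, h1, h2⟩ | ⟨h0, h1, h2⟩ <;>
  rcases pls_sh j d' with ⟨h0', h1', h2'⟩ | ⟨h0', h1', h2'⟩ <;> omega

theorem pf_PLS : T_PLS := by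
  intro L r j hL hj
  have hP : Plf L r (j + 1) := pf_PLF L r (j + 1) hL (by omega)
  refine ⟨?_, ?_, ?_, ?_, ?_, ?_⟩
  · rintro c c' (h | ⟨h, h'⟩)
    · exact Or.inl h
    · exact Or.inr ⟨h, pls_mono h'⟩
  · intro c c'
    constructor
    · intro he
      have hl : sh j (lr r c) = sh (j + 1) (lr r c') := by
        rw [← plf_lev (L := L) (by omega : j ≤ 2 * L + 2) c,
          ← plf_lev (L := L) (by omega : j + 1 ≤ 2 * L + 2) c', he]
      rcases plf_cases L r j c with ⟨h, hp⟩ | ⟨h, h0, hp⟩ | ⟨h, h1, hp⟩ <;>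
      rcases plf_cases L r (j + 1) c' with ⟨h', hp'⟩ | ⟨h', h0', hp'⟩ | ⟨h', h1', hp'⟩ <;>
      rw [hp, hp'] at he
      · have e : c = c' := Sum.inl.inj he
        subst e
        exact ⟨Or.inl rfl, pls_ne hl⟩
      · exact absurd he Sum.inl_ne_inr
      · exact absurd he Sum.inl_ne_inr
      · exact absurd he Sum.inr_ne_inl
      · have e : lr r c = lr r c' := (Prod.mk.inj (Prod.mk.inj (Sum.inl.inj (Sum.inr.inj he))).2).2
        refine ⟨Or.inr ⟨e, pls_mono h0⟩, pls_ne ?_⟩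
        rw [hl, e]
      · exact absurd (Sum.inr.inj he) Sum.inl_ne_inr
      · exact absurd he Sum.inr_ne_inl
      · exact absurd (Sum.inr.inj he) Sum.inr_ne_inl
      · have e : lr r c = lr r c' := Sum.inr.inj (Sum.inr.inj he)
        refine ⟨Or.inr ⟨e, pls_mono h⟩, pls_ne ?_⟩
        rw [hl, e]
    · rintro ⟨he, hn⟩
      rw [pls_same (pls_of_ne hn)]
      exact (hP.eq c c').2 he
  · intro c c'
    refine ⟨?_, ?_, ?_⟩
    · rw [plf_lev (by omega), plf_lev (by omega)]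
      exact (pls_near j _ _).1
    · rw [plf_lev (by omega), plf_lev (by omega)]
      exact (pls_near j _ _).2
    · intro q q' hq hq'
      rw [plf_reg c q hq, plf_reg c' q' hq']
  · intro c c'
    refine ⟨?_, ?_, ?_⟩
    · rw [plf_lev (by omega), plf_lev (by omega)]
      exact (pls_near j _ _).2
    · rw [plf_lev (by omega), plf_lev (by omega)]
      exact (pls_near j _ _).1
    · intro q q' hq hq'
      rw [plf_reg c q hq, plf_reg c' q' hq']
  · intro Z c c' hc hc'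
    rcases plf_cases L r j c with ⟨h, hp⟩ | ⟨h, h0, hp⟩ | ⟨h, h1, hp⟩ <;>
    rcases plf_cases L r (j + 1) c' with ⟨h', hp'⟩ | ⟨h', h0', hp'⟩ | ⟨h', h1', hp'⟩ <;>
    rw [hp] at hc <;> rw [hp'] at hc' <;> rcases Z with c₀ | d
    · have e1 : c = c₀ := hc
      have e2 : c' = c₀ := hc'
      exact Or.inl (e1.trans e2.symm)
    · exact absurd hc id
    · have e1 : c = c₀ := hc
      have e2 : lr r c₀ = lr r c' := hc'
      rw [← e1] at e2
      refine Or.inr ⟨e2, ?_⟩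
      rw [e2]
      exact h0'
    · exact absurd hc id
    · exact absurd hc' id
    · exact absurd hc id
    · have e1 : lr r c₀ = lr r c := hc
      have e2 : c' = c₀ := hc'
      rw [e2, e1] at h'
      exact absurd h' (pls_mono h0)
    · exact absurd hc' id
    · have e1 : lr r c₀ = lr r c := hc
      have e2 : lr r c₀ = lr r c' := hc'
      exact Or.inr ⟨e1.symm.trans e2, pls_mono h0⟩
    · have e1 : lr r c = d := hc
      have e2 : lr r c' = d := hc'
      exact Or.inr ⟨e1.trans e2.symm, pls_mono h0⟩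
    · exact absurd hc' id
    · have e1 : lr r c = d := hc
      have e2 : lr r c' = d := hc'
      exact Or.inr ⟨e1.trans e2.symm, pls_mono h0⟩
    · exact absurd hc id
    · exact absurd hc' id
    · exact absurd hc id
    · have e1 : lr r c = d := hc
      have e2 : lr r c' = d := hc'
      exact Or.inr ⟨e1.trans e2.symm, pls_mono h⟩
    · exact absurd hc id
    · have e1 : lr r c = d := hc
      have e2 : lr r c' = d := hc'
      exact Or.inr ⟨e1.trans e2.symm, pls_mono h⟩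
  · intro c
    have hm := pls_mono' (j := j) (d := lr r c)
    rcases plf_cases L r (j + 1) c with ⟨h', hp'⟩ | ⟨h', h0', hp'⟩ | ⟨h', h1', hp'⟩
    · refine ⟨Sum.inl c, ?_⟩
      rcases plf_cases L r j c with ⟨h, hp⟩ | ⟨h, h0, hp⟩ | ⟨h, h1, hp⟩
      · rw [hp, hp']
        exact ⟨rfl, rfl⟩
      · exact absurd h' (pls_mono h0)
      · exact absurd h' (pls_mono h)
    · refine ⟨Sum.inl c, ?_⟩
      rcases plf_cases L r j c with ⟨h, hp⟩ | ⟨h, h0, hp⟩ | ⟨h, h1, hp⟩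
      · rw [hp, hp']
        exact ⟨rfl, rfl⟩
      · rw [hp, hp']
        exact ⟨rfl, rfl⟩
      · omega
    · refine ⟨Sum.inr (lr r c), ?_⟩
      rcases plf_cases L r j c with ⟨h, hp⟩ | ⟨h, h0, hp⟩ | ⟨h, h1, hp⟩
      · omega
      · rw [hp, hp']
        exact ⟨rfl, rfl⟩
      · rw [hp, hp']
        exact ⟨rfl, rfl⟩

end Pool.Agent.H34.KR
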