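import Pool.Agent.H44.KR.Targets
import Pool.Agent.H56.NR.RSS

set_option autoImplicit false

namespace Pool.Agent.H34.KR

open Finset

/-- the number of the values of `i` less than `i a` -/
def rcnt {J : Type} [Fintype J] {m : ℕ} (i : J → Fin m) (a : J) : ℕ :=
  ((univ.filter fun b => i b < i a).image i).card

theorem rcnt_lt {J : Type} [Fintype J] {m : ℕ} (i : J → Fin m) (a : J) :
    rcnt i a < Fintype.card J := by
  classical
  refine lt_of_le_of_lt card_image_le ?_
  rw [← card_univ]
  apply card_lt_card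
  refine ⟨subset_univ _, ?_⟩
  intro h
  have h1 := h (mem_univ a)
  rw [mem_filter] at h1
  exact lt_irrefl _ h1.2

theorem rcnt_le {J : Type} [Fintype J] {m : ℕ} {i i' : J → Fin m}
    (h : ∀ a b, i a < i b ↔ i' a < i' b) (a : J) : rcnt i a ≤ rcnt i' a := by
  classical
  have heq : ∀ b c, i' b = i' c → i b = i c := by
    intro b c hbc
    have h1 := h b c
    have h2 := h c b
    rw [hbc] at h1 h2
    have h3 : ¬ i b < i c := fun h4 => lt_irrefl _ (h1.1 h4)
    have h4 : ¬ i c < i b := fun h5 => lt_irrefl _ (h2.1 h5)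
    exact le_antisymm (not_lt.1 h4) (not_lt.1 h3)
  have hsub : (univ.filter fun b => i b < i a).image i ⊆
      ((univ.filter fun b => i' b < i' a).image i').image
        (fun x => if hx : ∃ b, i' b = x then i hx.choose else i a) := by
    intro x hx
    rw [mem_image] at hx
    obtain ⟨b, hb, rfl⟩ := hx
    rw [mem_filter] at hb
    rw [mem_image]
    refine ⟨i' b, mem_image_of_mem _ (mem_filter.2 ⟨mem_univ _, (h b a).1 hb.2⟩), ?_⟩
    have hex : ∃ c, i' c = i' b := ⟨b, rfl⟩
    rw [dif_pos hex]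
    exact heq _ _ hex.choose_spec
  exact (card_le_card hsub).trans card_image_le

theorem rcnt_eq {J : Type} [Fintype J] {m : ℕ} {i i' : J → Fin m}
    (h : ∀ a b, i a < i b ↔ i' a < i' b) (a : J) : rcnt i a = rcnt i' a :=
  le_antisymm (rcnt_le h a) (rcnt_le (fun b c => (h b c).symm) a)

theorem rtp_fac {J : Type} [Fintype J] {m : ℕ} (i : J → Fin m) :
    ∃ t : Fin (Fintype.card J) → Fin (m + Fintype.card J), StrictMono t ∧
      ∀ a, t ⟨rcnt i a, rcnt_lt i a⟩ = Fin.castAdd _ (i a) := by
  classical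
  have hp : ∃ p : ℕ → Prop, p = fun x => (∃ b, (i b : ℕ) = x) ∨ m ≤ x := ⟨_, rfl⟩
  obtain ⟨p, hp⟩ := hp
  have hpm : ∀ x, m ≤ x → p x := by
    intro x hx
    rw [hp]
    exact Or.inr hx
  have hpi : ∀ a, p (i a) := by
    intro a
    rw [hp]
    exact Or.inl ⟨a, rfl⟩
  have hinf : (Set.ofPred p).Infinite :=
    Set.infinite_of_injective_forall_mem (f := fun k : ℕ => m + k)
      (fun a b h => Nat.add_left_cancel h) (fun k => hpm _ (Nat.le_add_right m k))
  have hbd : ∀ k, Nat.nth p k < m + k + 1 := by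
    intro k
    apply Nat.nth_lt_of_lt_count
    have h1 : m + k + 1 = m + (k + 1) := by ring
    rw [h1, Nat.count_add]
    have h2 : Nat.count (fun x => p (m + x)) (k + 1) = k + 1 := by
      rw [Nat.count_eq_card_filter_range, filter_true_of_mem, card_range]
      intro x _
      exact hpm _ (Nat.le_add_right m x)
    omega
  refine ⟨fun k => ⟨Nat.nth p k, ?_⟩, ?_, ?_⟩
  · have h1 := hbd k
    have h2 := k.2
    omega
  · intro k k' h
    exact Nat.nth_strictMono hinf h
  · intro a
    apply Fin.ext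
    show Nat.nth p (rcnt i a) = (i a : ℕ)
    have h1 : Nat.count p (i a) = rcnt i a := by
      rw [Nat.count_eq_card_filter_range]
      have h2 : (range (i a : ℕ)).filter p =
          ((univ.filter fun b => i b < i a).image i).image Fin.val := by
        ext x
        rw [mem_filter, mem_range, mem_image, hp]
        constructor
        · rintro ⟨hx, ⟨b, hb⟩ | hm⟩
          · refine ⟨i b, mem_image_of_mem _ (mem_filter.2 ⟨mem_univ _, ?_⟩), hb⟩
            rw [Fin.lt_def, hb]
            exact hx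
          · have := (i a).2
            omega
        · rintro ⟨y, hy, rfl⟩
          rw [mem_image] at hy
          obtain ⟨b, hb, rfl⟩ := hy
          rw [mem_filter] at hb
          exact ⟨hb.2, Or.inl ⟨b, rfl⟩⟩
      rw [h2, card_image_of_injective _ Fin.val_injective]
      rfl
    rw [← h1]
    exact Nat.nth_count (hpi a)

theorem pf_RTP : Pool.Agent.H44.KR.T_RTP := by
  classical
  intro J Y hJ hY m
  have : Fintype J := Fintype.ofFinite J
  obtain ⟨R, hR⟩ := Pool.Agent.H56.NR.pf_RSS (Fintype.card J) (m + Fintype.card J)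
    ((J → Fin (Fintype.card J)) → Y)
  refine ⟨R, fun D => ?_⟩
  obtain ⟨β, hβ, hc⟩ := hR (fun t u => D (fun a => t (u a)))
  refine ⟨fun x => β (Fin.castAdd _ x), ?_, ?_⟩
  · intro x y h
    exact hβ h
  · intro i i' h
    obtain ⟨t, ht, hti⟩ := rtp_fac i
    obtain ⟨t', ht', hti'⟩ := rtp_fac i'
    have h1 := congrFun (hc t t' ht ht') (fun a => ⟨rcnt i a, rcnt_lt i a⟩)
    have h2 : D (fun a => β (t ⟨rcnt i a, rcnt_lt i a⟩)) =
      D (fun a => β (t' ⟨rcnt i a, rcnt_lt i a⟩)) := h1
    have h3 : ∀ a, (⟨rcnt i a, rcnt_lt i a⟩ : Fin (Fintype.card J)) =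
        ⟨rcnt i' a, rcnt_lt i' a⟩ := fun a => Fin.ext (rcnt_eq h a)
    have h4 : (fun a => β (t ⟨rcnt i a, rcnt_lt i a⟩)) = fun a => β (Fin.castAdd _ (i a)) := by
      funext a
      rw [hti a]
    have h5 : (fun a => β (t' ⟨rcnt i a, rcnt_lt i a⟩)) = fun a => β (Fin.castAdd _ (i' a)) := by
      funext a
      rw [h3 a, hti' a]
    rw [h4, h5] at h2
    exact h2

end Pool.Agent.H34.KR
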