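import Pool.Agent.H44.KR.Targets

set_option autoImplicit false

namespace Pool.Agent.H34.KR

open Pool.Agent.H68.BP Pool.Agent.H58.SF Pool.Agent.H53.NR Pool.Agent.H53.GM Pool.Agent.H44.KR
open Pool.Agent.H57.LCI (LocalCompletions Pre Realizes)
open Pool.Agent.H57.AR (tp ty)
open Pool.Agent.H57.EQ (Cx)
open Function
open Classical

/-- the position of a place of the pair of blocks -/
def thu : JJ → Fin 6 := Sum.elim id id

theorem th0_el {V : Type} (L : ℕ) (r : Fin 3) (j : ℕ) (x : Fin 6 → V) (p : JJ) :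
    (Sum.elim (blk L r j x) (blk L r j x) : JJ → Pl L × V) p = (plc L r j (thu p), x (thu p)) := by
  rcases p with p | p <;> rfl

theorem th0_kv {V : Type} {ρ : Sig} {𝔹 : Str ρ V} {L : ℕ} {r : Fin 3} {j : ℕ} (hp : Plf L r j)
    {s : Fin ρ.m → Prop} {x x' : Fin 6 → V} (hx : BlS 𝔹 r j s x) (hx' : BlS 𝔹 r j s x')
    (rk rk' : Pl L × V → ℕ) :
    kv 𝔹 rk (Sum.elim (blk L r j x) (blk L r j x) : JJ → Pl L × V) =
      kv 𝔹 rk' (Sum.elim (blk L r j x') (blk L r j x') : JJ → Pl L × V) := by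
  have e1 : (Sum.elim (blk L r j x) (blk L r j x) : JJ → Pl L × V) =
      fun p => (plc L r j (thu p), x (thu p)) := funext (th0_el L r j x)
  have e2 : (Sum.elim (blk L r j x') (blk L r j x') : JJ → Pl L × V) =
      fun p => (plc L r j (thu p), x' (thu p)) := funext (th0_el L r j x')
  rw [e1, e2]
  have hE : ∀ (y : Fin 6 → V), BlS 𝔹 r j s y → ∀ p q : JJ,
      ((plc L r j (thu p), y (thu p)) = (plc L r j (thu q), y (thu q)) ↔
        Ent r j (thu p) (thu q)) := by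
    intro y hy p q
    constructor
    · intro h
      exact (hp.eq _ _).1 (congrArg Prod.fst h)
    · intro h
      rw [(hp.eq _ _).2 h, hy.1 _ _ h]
  have hO : ∀ (y : Fin 6 → V), BlS 𝔹 r j s y → ∀ (k : Pl L × V → ℕ) (p q : JJ),
      ¬ (plc L r j (thu p) = plc L r j (thu q) ∧
        k (plc L r j (thu p), y (thu p)) < k (plc L r j (thu q), y (thu q))) := by
    intro y hy k p q h
    have h1 := (hE y hy p q).2 ((hp.eq _ _).1 h.1)
    rw [h1] at h
    exact lt_irrefl _ h.2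
  have hSt : ∀ (y : Fin 6 → V), BlS 𝔹 r j s y → ∀ (l : Fin ρ.m) (z : Fin (ρ.ar l) → JJ),
      (∃ Z, ∀ i, inSh Z (plc L r j (thu (z i)))) → 0 < ρ.ar l →
      (𝔹 l (fun i => y (thu (z i))) ↔ s l) := by
    intro y hy l z hZ hl
    obtain ⟨Z, hZ⟩ := hZ
    have h1 : (fun i => y (thu (z i))) = fun _ => y (thu (z ⟨0, hl⟩)) := by
      funext i
      exact hy.1 _ _ (hp.sh Z _ _ (hZ i) (hZ ⟨0, hl⟩))
    rw [h1]
    have h2 := congrFun (hy.2 (thu (z ⟨0, hl⟩))) l
    exact iff_of_eq h2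
  refine Prod.ext rfl (Prod.ext ?_ (Prod.ext ?_ ?_))
  · funext p q
    exact propext ((hE x hx p q).trans (hE x' hx' p q).symm)
  · funext p q
    exact propext ⟨fun h => absurd h (hO x hx rk p q), fun h => absurd h (hO x' hx' rk' p q)⟩
  · funext l z
    apply propext
    constructor
    · rintro ⟨hZ, h⟩
      refine ⟨hZ, ?_⟩
      rcases Nat.eq_zero_or_pos (ρ.ar l) with h0 | h0
      · have h3 : (fun i => x' (thu (z i))) = fun i => x (thu (z i)) := by
          funext i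
          exact absurd i.2 (by omega)
        show 𝔹 l (fun i => x' (thu (z i)))
        rw [h3]
        exact h
      · exact (hSt x' hx' l z hZ h0).2 ((hSt x hx l z hZ h0).1 h)
    · rintro ⟨hZ, h⟩
      refine ⟨hZ, ?_⟩
      rcases Nat.eq_zero_or_pos (ρ.ar l) with h0 | h0
      · have h3 : (fun i => x (thu (z i))) = fun i => x' (thu (z i)) := by
          funext i
          exact absurd i.2 (by omega)
        show 𝔹 l (fun i => x (thu (z i)))
        rw [h3]
        exact h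
      · exact (hSt x hx l z hZ h0).2 ((hSt x' hx' l z hZ h0).1 h)

theorem pf_TH0 : T_TH0 := by
  intro V ρ 𝔹 L Φ r j hp
  have h : ∀ s : Fin ρ.m → Prop, ∃ t : Fin ρ.m → Prop, ∀ (x : Fin 6 → V) (rk : Pl L × V → ℕ),
      BlS 𝔹 r j s x → (Fv 𝔹 Φ rk (blk L r j x) (blk L r j x)).2.1 = t := by
    intro s
    by_cases h : ∃ x : Fin 6 → V, BlS 𝔹 r j s x
    · obtain ⟨x, hx⟩ := h
      refine ⟨(Fv 𝔹 Φ (fun _ => 0) (blk L r j x) (blk L r j x)).2.1, ?_⟩
      intro x' rk' hx'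
      unfold Fv
      rw [th0_kv hp hx' hx rk' (fun _ => 0)]
    · exact ⟨s, fun x rk hx => absurd ⟨x, hx⟩ h⟩
  choose θ hθ using h
  exact ⟨θ, fun s x rk hx _ => hθ s x rk hx⟩

end Pool.Agent.H34.KR
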