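import Pool.Agent.H44.KR.Targets

set_option autoImplicit false

namespace Pool.Agent.H34.KR

open Pool.Agent.H68.BP Pool.Agent.H58.SF Pool.Agent.H53.NR Pool.Agent.H53.GM Pool.Agent.H44.KR
open Pool.Agent.H57.LCI (LocalCompletions Pre Realizes)
open Pool.Agent.H57.AR (tp ty)
open Pool.Agent.H57.EQ (Cx)
open Function
open Classical

theorem ths_rk {J X : Type} [Finite J] (a : J → X) : ∃ rk : X → ℕ, RkI rk a := by
  obtain ⟨f, hf⟩ := Countable.exists_injective_nat (Set.range a)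
  refine ⟨fun x => if h : x ∈ Set.range a then f ⟨x, h⟩ else 0, ?_⟩
  intro i j h
  have h' : (if h : a i ∈ Set.range a then f ⟨a i, h⟩ else 0) =
      (if h : a j ∈ Set.range a then f ⟨a j, h⟩ else 0) := h
  rw [dif_pos ⟨i, rfl⟩, dif_pos ⟨j, rfl⟩] at h'
  exact congrArg Subtype.val (hf h')

theorem ths_mem {V : Type} {σ ρ : Sig} {𝔸 : Str σ V} {𝔹 : Str ρ V}
    {γ : (Fin ρ.m → Prop) → (Fin ρ.m → Prop)} (hγ : Sb 𝔸 𝔹 γ) {s : Fin ρ.m → Prop}
    (hs : s ∈ Rlz 𝔹) : γ s ∈ Rlz 𝔹 := by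
  obtain ⟨x, hx⟩ := hs
  obtain ⟨ψ, _, h⟩ := hγ Unit fun _ => x
  refine ⟨ψ (), ?_⟩
  rw [h (), hx]

theorem ths_sb {V : Type} {σ ρ : Sig} {𝔸 : Str σ V} {𝔹 : Str ρ V} {L : ℕ}
    {Φ : Kd ρ L JJ → Yc ρ} (hC : Can 𝔸 𝔹 L Φ) {r : Fin 3} {j : ℕ} (h0 : Plf L r j)
    (h1 : Plf L r (j + 1)) (h2 : Pls L r j) {θ θ' : (Fin ρ.m → Prop) → (Fin ρ.m → Prop)}
    (hθ : IsTh 𝔹 Φ r j θ) (hθ' : IsTh 𝔹 Φ r (j + 1) θ') (s : Fin ρ.m → Prop) :
    Sb 𝔸 𝔹 (fun t => if t = s then θ' s else θ t) := by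
  intro W hW G
  have hj : ∃ jj : W → ℕ, jj = fun w => if ty 𝔹 (G w) = s then j + 1 else j := ⟨_, rfl⟩
  obtain ⟨jj, hjj⟩ := hj
  have hor : ∀ w, jj w = j ∨ jj w = j + 1 := by
    intro w
    rw [hjj]
    by_cases h : ty 𝔹 (G w) = s
    · exact Or.inr (if_pos h)
    · exact Or.inl (if_neg h)
  have hplf : ∀ w, Plf L r (jj w) := by
    intro w
    rcases hor w with h | h
    · rw [h]
      exact h0
    · rw [h]
      exact h1
  obtain ⟨rk, hrk⟩ := ths_rk (fun q : W × Fin 6 => blk L r (jj q.1) (fun _ => G q.1) q.2)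
  have hcfg : Cfg r (fun w => blk L r (jj w) (fun _ => G w)) rk := by
    refine ⟨?_, ?_, ?_, hrk⟩
    · intro w c
      exact (hplf w).at_ c
    · intro w w' c
      show Adj (reg (plc L r (jj w) c)) (reg (plc L r (jj w') c))
      rcases hor w with h | h <;> rcases hor w' with h' | h' <;> rw [h, h']
      · exact h0.adj c c
      · exact h2.adj c c
      · exact h2.adj' c c
      · exact h1.adj c c
    · intro Z w w' c c' hc hc' hG
      have hG' : G w = G w' := hG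
      have hw : jj w' = jj w := by
        rw [hjj]
        show (if ty 𝔹 (G w') = s then j + 1 else j) = (if ty 𝔹 (G w) = s then j + 1 else j)
        rw [hG']
      show plc L r (jj w) c = plc L r (jj w') c'
      have hc1 : inSh Z (plc L r (jj w) c) := hc
      have hc2 : inSh Z (plc L r (jj w') c') := hc'
      rw [hw] at hc2 ⊢
      exact ((hplf w).eq c c').2 ((hplf w).sh Z c c' hc1 hc2)
  obtain ⟨ψ, hψ, hcol⟩ := hC.out r W _ rk hcfg
  refine ⟨ψ, ?_, ?_⟩
  · intro l z h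
    exact hψ l z fun _ => h ()
  · intro w
    have h3 := congrArg (fun y : Yc ρ => y.2.1) (hcol w w (by
      intro p q
      rcases p with p | p <;> rcases q with q | q <;> exact (hplf w).adj p q))
    have h4 : ty 𝔹 (ψ w) = (Fv 𝔹 Φ rk (blk L r (jj w) (fun _ => G w))
      (blk L r (jj w) (fun _ => G w))).2.1 := h3
    have hR : RkI rk (blk L r (jj w) (fun _ => G w)) := by
      intro p q hpq
      exact hrk (w, p) (w, q) hpq
    rw [h4]
    show _ = if ty 𝔹 (G w) = s then θ' s else θ (ty 𝔹 (G w))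
    by_cases h : ty 𝔹 (G w) = s
    · have hw : jj w = j + 1 := by
        rw [hjj]
        exact if_pos h
      rw [if_pos h]
      rw [hw] at hR ⊢
      exact hθ' s _ rk ⟨fun _ _ _ => rfl, fun _ => h⟩ hR
    · have hw : jj w = j := by
        rw [hjj]
        exact if_neg h
      rw [if_neg h]
      rw [hw] at hR ⊢
      exact hθ _ _ rk ⟨fun _ _ _ => rfl, fun _ => rfl⟩ hR

theorem pf_THS : T_THS := by
  intro V σ ρ 𝔸 𝔹 L Φ hC hP r j h0 h1 h2 θ θ' hθ hθ' hS s hs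
  have hγ := ths_sb hC h0 h1 h2 hθ hθ' s
  have hi := hP θ hS
  have hi' := hP _ hγ
  have hinj : Injective (fun t : Rlz 𝔹 => (⟨θ t, ths_mem hS t.2⟩ : Rlz 𝔹)) := by
    intro t t' h
    exact Subtype.ext (hi t.2 t'.2 (congrArg Subtype.val h))
  have hsur := Finite.surjective_of_injective hinj
  have hm : θ' s ∈ Rlz 𝔹 := by
    have h3 := ths_mem hγ hs
    have h4 : (if s = s then θ' s else θ s) ∈ Rlz 𝔹 := h3
    rw [if_pos rfl] at h4
    exact h4
  obtain ⟨t, ht⟩ := hsur ⟨θ' s, hm⟩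
  have ht' : θ t = θ' s := congrArg Subtype.val ht
  have hts : (t : Fin ρ.m → Prop) = s := by
    by_contra hne
    apply hne
    apply hi' t.2 hs
    show (if (t : Fin ρ.m → Prop) = s then θ' s else θ t) = (if s = s then θ' s else θ s)
    rw [if_neg hne, if_pos rfl, ht']
  rw [← ht', hts]

end Pool.Agent.H34.KR
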