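import Pool.Agent.H44.KR.Targets

set_option autoImplicit false

namespace Pool.Agent.H34.KR

open Pool.Agent.H68.BP Pool.Agent.H58.SF Pool.Agent.H53.NR Pool.Agent.H53.GM Pool.Agent.H44.KR
open Pool.Agent.H57.LCI (LocalCompletions Pre Realizes)
open Pool.Agent.H57.AR (tp ty)
open Pool.Agent.H57.EQ (Cx)
open Function
open Classical

theorem two_rk {J X : Type} [Finite J] (a : J → X) : ∃ rk : X → ℕ, RkI rk a := by
  obtain ⟨f, hf⟩ := Countable.exists_injective_nat (Set.range a)
  refine ⟨fun x => if h : x ∈ Set.range a then f ⟨x, h⟩ else 0, ?_⟩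
  intro i j h
  have h' : (if h : a i ∈ Set.range a then f ⟨a i, h⟩ else 0) =
      (if h : a j ∈ Set.range a then f ⟨a j, h⟩ else 0) := h
  rw [dif_pos ⟨i, rfl⟩, dif_pos ⟨j, rfl⟩] at h'
  exact congrArg Subtype.val (hf h')

theorem two_sat {r : Fin 3} {j : ℕ} (c : Fin 6) :
    Sat r j (fun c₁ => if Ent r j c c₁ then (0 : Fin 2) else 1) := by
  intro c₁ c₂ h
  have h1 : Ent r j c c₁ ↔ Ent r j c c₂ := by
    constructor
    · intro h1
      rcases h1 with h1 | h1
      · rw [h1]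
        exact h
      · rcases h with h | h
        · rw [← h]
          exact Or.inr h1
        · exact Or.inr ⟨h1.1.trans h.1, h1.2⟩
    · intro h1
      rcases h with h | h
      · rw [h]
        exact h1
      · rcases h1 with h1 | h1
        · rw [h1]
          refine Or.inr ⟨h.1.symm, ?_⟩
          rw [← h.1]
          exact h.2
        · exact Or.inr ⟨h1.1.trans h.1.symm, h1.2⟩
  show (if Ent r j c c₁ then (0 : Fin 2) else 1) = (if Ent r j c c₂ then (0 : Fin 2) else 1)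
  by_cases h2 : Ent r j c c₁
  · rw [if_pos h2, if_pos (h1.1 h2)]
  · rw [if_neg h2, if_neg fun h => h2 (h1.2 h)]

theorem pf_TWO : T_TWO := by
  intro V σ ρ 𝔸 𝔹 L Φ hB r j hj θ hθ s hN J hJ c hc c' hc' hcc W hW G
  have hS := two_sat (r := r) (j := j) c
  obtain ⟨rk, hrk⟩ := two_rk (fun q : W × Fin 6 =>
    (plc L r j q.2, G ((fun c₁ => if Ent r j c c₁ then (0 : Fin 2) else 1) q.2) q.1))
  obtain ⟨ψ₀, h1, h2⟩ := hB r j hj (Fin 2) W _ G rk hS hrk
  obtain ⟨ψ, h3, h4, h5⟩ := hN W ψ₀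
  have hBl : ∀ w, OfS 𝔹 s G w → BlS 𝔹 r j s
      (fun c₂ => G ((fun c₁ => if Ent r j c c₁ then (0 : Fin 2) else 1) c₂) w) := by
    intro w hw
    refine ⟨?_, fun c₂ => hw _⟩
    intro c₂ c₃ h
    have := hS c₂ c₃ h
    show G ((fun c₁ => if Ent r j c c₁ then (0 : Fin 2) else 1) c₂) w =
      G ((fun c₁ => if Ent r j c c₁ then (0 : Fin 2) else 1) c₃) w
    rw [this]
  have hty : ∀ w, OfS 𝔹 s G w → ty 𝔹 (ψ₀ w) = θ s := by
    intro w hw
    have h6 := congrArg (fun y : Yc ρ => y.2.1) (h2 w w)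
    have h7 := hθ s _ rk (hBl w hw) (by
      intro p q hpq
      exact hrk (w, p) (w, q) hpq)
    exact h6.trans h7
  refine ⟨ψ, ?_, ?_, ?_⟩
  · intro l z h
    exact h3 l z fun _ => h1 l z h
  · intro w hw
    exact h4 w (hty w hw)
  · intro w w' hw hw' he
    have h6 : ψ₀ w = ψ₀ w' := (h5 w w' (hty w hw) (hty w' hw')).1 he
    have h7 := congrArg (fun y : Yc ρ => y.1) (h2 w w')
    have h8 : (ψ₀ w = ψ₀ w') = (Fv 𝔹 Φ rk
        (blk L r j fun c₂ => G ((fun c₁ => if Ent r j c c₁ then (0 : Fin 2) else 1) c₂) w)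
        (blk L r j fun c₂ => G ((fun c₁ => if Ent r j c c₁ then (0 : Fin 2) else 1) c₂) w')).1 := h7
    rw [h8] at h6
    have h9 := (hJ.2 _ _ rk (hBl w hw) (hBl w' hw') (by
      intro p q hpq
      rcases p with p | p <;> rcases q with q | q
      · exact hrk (w, p) (w, q) hpq
      · exact hrk (w, p) (w', q) hpq
      · exact hrk (w', p) (w, q) hpq
      · exact hrk (w', p) (w', q) hpq)).1 h6
    have h10 : G (if Ent r j c c then (0 : Fin 2) else 1) w =
      G (if Ent r j c c then (0 : Fin 2) else 1) w' := h9 c hc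
    have h11 : G (if Ent r j c c' then (0 : Fin 2) else 1) w =
      G (if Ent r j c c' then (0 : Fin 2) else 1) w' := h9 c' hc'
    have hcc0 : Ent r j c c := Or.inl rfl
    rw [if_pos hcc0] at h10
    rw [if_neg hcc] at h11
    intro i
    have hi : i = 0 ∨ i = 1 := by omega
    rcases hi with rfl | rfl
    · exact h10
    · exact h11

end Pool.Agent.H34.KR
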